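import Pool.Agent.AS.Main
import Mathlib.Order.WellFoundedSet
import Mathlib.Tactic

set_option autoImplicit false

/-!
# Finiteness of the solutions of `a(n) = σ(n)` with a given pattern of exponents
-/

namespace Pool.Agent.Results.MP_846857_nt.FinitePatterns

open Pool.Agent.AS ArithmeticFunction Finset

/-- `a(n) = σ(n)`, where `a(n) = n τ(n) - ∑ d τ(d)`, the sum over the divisors `d < n` of `n` -/
def Coinc (n : ℕ) : Prop :=
  (n : ℤ) * n.divisors.card - ∑ d ∈ n.properDivisors, (d : ℤ) * d.divisors.card =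
    ∑ d ∈ n.divisors, (d : ℤ)

/-- the powerful part of `n`: the product of the prime powers `p ^ e` which divide `n` exactly and
have `e ≥ 2` -/
def powPart (n : ℕ) : ℕ :=
  ∏ p ∈ n.primeFactors.filter (fun p => 2 ≤ n.factorization p), p ^ n.factorization p

theorem TT_cross {p q e : ℕ} (hpq : p < q) (he : 1 ≤ e) :
    TT q (e + 1) * p ^ e < TT p (e + 1) * q ^ e := by
  unfold TT
  rw [Finset.sum_mul, Finset.sum_mul]
  refine Finset.sum_lt_sum (fun j hj => ?_) ⟨0, by simp, ?_⟩
  · rw [Finset.mem_range] at hj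
    obtain ⟨i, hi⟩ : ∃ i, e = j + i := ⟨e - j, by omega⟩
    rw [hi, pow_add, pow_add, mul_assoc, mul_assoc]
    refine Nat.mul_le_mul_left _ ?_
    have h1 : p ^ i ≤ q ^ i := Nat.pow_le_pow_left hpq.le i
    calc q ^ j * (p ^ j * p ^ i) = q ^ j * p ^ j * p ^ i := by ring
      _ ≤ q ^ j * p ^ j * q ^ i := Nat.mul_le_mul_left _ h1
      _ = p ^ j * (q ^ j * q ^ i) := by ring
  · have h1 : p ^ e < q ^ e := Nat.pow_lt_pow_left hpq (by omega)
    simpa using h1

theorem GG_cross {p q e : ℕ} (hpq : p < q) (he : 1 ≤ e) :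
    GG q (e + 1) * p ^ e < GG p (e + 1) * q ^ e := by
  unfold GG
  rw [Finset.sum_mul, Finset.sum_mul]
  refine Finset.sum_lt_sum (fun j hj => ?_) ⟨0, by simp, ?_⟩
  · rw [Finset.mem_range] at hj
    obtain ⟨i, hi⟩ : ∃ i, e = j + i := ⟨e - j, by omega⟩
    rw [hi, pow_add, pow_add]
    have h1 : p ^ i ≤ q ^ i := Nat.pow_le_pow_left hpq.le i
    calc q ^ j * (p ^ j * p ^ i) = q ^ j * p ^ j * p ^ i := by ring
      _ ≤ q ^ j * p ^ j * q ^ i := Nat.mul_le_mul_left _ h1
      _ = p ^ j * (q ^ j * q ^ i) := by ring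
  · have h1 : p ^ e < q ^ e := Nat.pow_lt_pow_left hpq (by omega)
    simpa using h1

theorem GG_pos (p e : ℕ) : 0 < GG p (e + 1) := by
  unfold GG
  rw [Finset.sum_range_succ']
  positivity

section pattern

variable {ι : Type} [Fintype ι] (e : ι → ℕ)

/-- the equation for the tuple `p` -/
def Eq (p : ι → ℕ) : Prop :=
  ∏ i, TT (p i) (e i + 1) + ∏ i, GG (p i) (e i + 1) = 2 * ((∏ i, p i ^ e i) * ∏ i, (e i + 1))

theorem antichain (he : ∀ i, 1 ≤ e i) {p q : ι → ℕ} (hp : ∀ i, 0 < p i) (hpe : Eq e p)
    (hqe : Eq e q) (hle : p ≤ q) (hne : p ≠ q) : False := by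
  have hq : ∀ i, 0 < q i := fun i => (hp i).trans_le (hle i)
  obtain ⟨i₀, hi₀⟩ : ∃ i, p i < q i := by
    by_contra hcon
    push Not at hcon
    exact hne (funext fun i => le_antisymm (hle i) (hcon i))
  have h1 : (∏ i, TT (q i) (e i + 1)) * ∏ i, p i ^ e i <
      (∏ i, TT (p i) (e i + 1)) * ∏ i, q i ^ e i := by
    rw [← Finset.prod_mul_distrib, ← Finset.prod_mul_distrib]
    refine Finset.prod_lt_prod (fun i _ => ?_) (fun i _ => ?_) ⟨i₀, Finset.mem_univ _, ?_⟩
    · exact Nat.mul_pos (TT_pos (by omega)) (Nat.pow_pos (hp i))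
    · rcases (hle i).lt_or_eq with h | h
      · exact (TT_cross h (he i)).le
      · rw [h]
    · exact TT_cross hi₀ (he i₀)
  have h2 : (∏ i, GG (q i) (e i + 1)) * ∏ i, p i ^ e i <
      (∏ i, GG (p i) (e i + 1)) * ∏ i, q i ^ e i := by
    rw [← Finset.prod_mul_distrib, ← Finset.prod_mul_distrib]
    refine Finset.prod_lt_prod (fun i _ => ?_) (fun i _ => ?_) ⟨i₀, Finset.mem_univ _, ?_⟩
    · exact Nat.mul_pos (GG_pos _ _) (Nat.pow_pos (hp i))
    · rcases (hle i).lt_or_eq with h | h
      · exact (GG_cross h (he i)).le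
      · rw [h]
    · exact GG_cross hi₀ (he i₀)
  unfold Eq at hpe hqe
  have h3 : (∏ i, TT (q i) (e i + 1) + ∏ i, GG (q i) (e i + 1)) * ∏ i, p i ^ e i =
      2 * ((∏ i, q i ^ e i) * ∏ i, (e i + 1)) * ∏ i, p i ^ e i := by rw [hqe]
  have h4 : (∏ i, TT (p i) (e i + 1) + ∏ i, GG (p i) (e i + 1)) * ∏ i, q i ^ e i =
      2 * ((∏ i, p i ^ e i) * ∏ i, (e i + 1)) * ∏ i, q i ^ e i := by rw [hpe]
  have h5 : 2 * ((∏ i, q i ^ e i) * ∏ i, (e i + 1)) * ∏ i, p i ^ e i =
      2 * ((∏ i, p i ^ e i) * ∏ i, (e i + 1)) * ∏ i, q i ^ e i := by ring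
  rw [add_mul] at h3 h4
  omega

theorem finite_tuples (he : ∀ i, 1 ≤ e i) :
    {p : ι → ℕ | (∀ i, 0 < p i) ∧ Eq e p}.Finite := by
  refine IsAntichain.finite_of_partiallyWellOrderedOn (r := (· ≤ ·)) ?_
    (Set.isPWO_of_wellQuasiOrderedLE _)
  intro p hp q hq hne hle
  exact antichain e he hp.1 hp.2 hq.2 hle hne

theorem equation_tuple {p : ι → ℕ} (hp : ∀ i, (p i).Prime) (hinj : Function.Injective p)
    (h : Coinc (∏ i, p i ^ e i)) : Eq e p := by
  have hn : 0 < ∏ i, p i ^ e i := Finset.prod_pos fun i _ => Nat.pow_pos (hp i).pos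
  have h1 := equation hn h
  have hco : ((Finset.univ : Finset ι) : Set ι).Pairwise
      (Function.onFun Nat.Coprime fun i => p i ^ e i) := by
    intro i _ j _ hij
    exact Nat.Coprime.pow _ _ ((Nat.coprime_primes (hp i) (hp j)).2 fun h => hij (hinj h))
  have h2 : FF (∏ i, p i ^ e i) = ∏ i, TT (p i) (e i + 1) := by
    rw [FF_mult.map_prod _ _ hco]
    exact Finset.prod_congr rfl fun i _ => FF_prime_pow (hp i) _
  have h3 : sigma 1 (∏ i, p i ^ e i) = ∏ i, GG (p i) (e i + 1) := by
    rw [isMultiplicative_sigma.map_prod _ _ hco]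
    exact Finset.prod_congr rfl fun i _ => sigma_prime_pow (hp i) _
  have h4 : (∏ i, p i ^ e i).divisors.card = ∏ i, (e i + 1) := by
    rw [← sigma_zero_apply, isMultiplicative_sigma.map_prod _ _ hco]
    refine Finset.prod_congr rfl fun i _ => ?_
    rw [sigma_zero_apply, Nat.divisors_prime_pow (hp i), Finset.card_map, Finset.card_range]
  rw [h2, h3, h4] at h1
  exact h1

theorem finite_pattern (he : ∀ i, 1 ≤ e i) :
    {n : ℕ | Coinc n ∧ ∃ p : ι → ℕ, (∀ i, (p i).Prime) ∧ Function.Injective p ∧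
      n = ∏ i, p i ^ e i}.Finite := by
  refine ((finite_tuples e he).image fun p => ∏ i, p i ^ e i).subset ?_
  rintro n ⟨hn, p, hp, hinj, rfl⟩
  exact ⟨p, ⟨fun i => (hp i).pos, equation_tuple e hp hinj hn⟩, rfl⟩

end pattern

/-! ### the powerful part -/

theorem mem_filter_iff (n q : ℕ) :
    q ∈ n.primeFactors.filter (fun p => 2 ≤ n.factorization p) ↔ 2 ≤ n.factorization q := by
  rw [Finset.mem_filter, ← Nat.support_factorization, Finsupp.mem_support_iff]
  constructor
  · exact fun h => h.2
  · exact fun h => ⟨by omega, h⟩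

theorem powPart_factorization (n q : ℕ) :
    (powPart n).factorization q = if 2 ≤ n.factorization q then n.factorization q else 0 := by
  unfold powPart
  rw [Nat.factorization_prod (fun q hq => by
    have := (Nat.prime_of_mem_primeFactors (Finset.mem_filter.1 hq).1).pos
    positivity), Finsupp.coe_finsetSum, Finset.sum_apply]
  have h1 : ∀ p ∈ n.primeFactors.filter (fun p => 2 ≤ n.factorization p),
      (p ^ n.factorization p).factorization q = if q = p then n.factorization q else 0 := by
    intro p hp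
    rw [Nat.Prime.factorization_pow (Nat.prime_of_mem_primeFactors (Finset.mem_filter.1 hp).1)]
    by_cases h : q = p
    · rw [if_pos h, h, Finsupp.single_eq_same]
    · rw [if_neg h, Finsupp.single_apply, if_neg fun h' => h h'.symm]
  rw [Finset.sum_congr rfl h1, Finset.sum_ite_eq]
  by_cases h : 2 ≤ n.factorization q
  · rw [if_pos ((mem_filter_iff n q).2 h), if_pos h]
  · rw [if_neg fun h' => h ((mem_filter_iff n q).1 h'), if_neg h]

theorem powPart_factors (n : ℕ) :
    (powPart n).primeFactors = n.primeFactors.filter (fun p => 2 ≤ n.factorization p) := by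
  ext q
  rw [mem_filter_iff, ← Nat.support_factorization, Finsupp.mem_support_iff,
    powPart_factorization]
  split_ifs with h
  · exact ⟨fun _ => h, fun _ => by omega⟩
  · exact ⟨fun h' => absurd rfl h', fun h' => absurd h' h⟩

theorem powPart_fact {n p : ℕ} (hp : p ∈ n.primeFactors.filter (fun p => 2 ≤ n.factorization p)) :
    (powPart n).factorization p = n.factorization p := by
  rw [powPart_factorization, if_pos ((mem_filter_iff n p).1 hp)]

/-- the primes which divide `n` exactly once -/
def once (n : ℕ) : Finset ℕ := n.primeFactors.filter (fun p => n.factorization p = 1)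

theorem card_once {n : ℕ} (hn : 0 < n) (h : Coinc n) :
    (once n).card ≤ ∑ p ∈ (powPart n).primeFactors, ((powPart n).factorization p + 2) + 1 := by
  have h1 := two_adic hn (equation hn h)
  have h2 : (once n).card ≤
      ((n.primeFactors.erase 2).filter fun p => Odd (n.factorization p)).card + 1 := by
    have h3 : once n ⊆ insert 2 ((n.primeFactors.erase 2).filter fun p =>
        Odd (n.factorization p)) := by
      intro p hp
      rw [once, Finset.mem_filter] at hp
      rw [Finset.mem_insert, Finset.mem_filter, Finset.mem_erase]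
      by_cases h4 : p = 2
      · exact Or.inl h4
      · exact Or.inr ⟨⟨h4, hp.1⟩, by rw [hp.2]; exact odd_one⟩
    exact (Finset.card_le_card h3).trans (Finset.card_insert_le _ _)
  have h5 : ∑ p ∈ (n.primeFactors.erase 2).filter (fun p => Even (n.factorization p)),
      (padicValNat 2 (n.factorization p + 2) - 1) ≤
      ∑ p ∈ (powPart n).primeFactors, ((powPart n).factorization p + 2) := by
    have h6 : (n.primeFactors.erase 2).filter (fun p => Even (n.factorization p)) ⊆
        (powPart n).primeFactors := by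
      intro p hp
      rw [Finset.mem_filter, Finset.mem_erase] at hp
      rw [powPart_factors, Finset.mem_filter]
      refine ⟨hp.1.2, ?_⟩
      have h7 : n.factorization p ≠ 0 := by
        have := hp.1.2
        rwa [← Nat.support_factorization, Finsupp.mem_support_iff] at this
      obtain ⟨k, hk⟩ := hp.2
      omega
    refine (Finset.sum_le_sum fun p hp => ?_).trans (Finset.sum_le_sum_of_subset h6)
    have h8 := h6 hp
    rw [powPart_factors] at h8
    rw [powPart_fact h8]
    have h9 : padicValNat 2 (n.factorization p + 2) ≤ n.factorization p + 2 := by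
      have := padicValNat_le_nat_log (p := 2) (n.factorization p + 2)
      exact this.trans (Nat.log_le_self _ _)
    omega
  omega

theorem decomp {n : ℕ} (hn : 0 < n) : n = powPart n * ∏ p ∈ once n, p := by
  conv_lhs => rw [← Nat.prod_factorization_pow_eq_self hn.ne', Finsupp.prod,
    Nat.support_factorization]
  unfold powPart once
  rw [← Finset.prod_filter_mul_prod_filter_not n.primeFactors (fun p => 2 ≤ n.factorization p)]
  congr 1
  have h1 : n.primeFactors.filter (fun p => ¬ 2 ≤ n.factorization p) =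
      n.primeFactors.filter (fun p => n.factorization p = 1) := by
    refine Finset.filter_congr fun p hp => ?_
    have h7 : n.factorization p ≠ 0 := by
      rwa [← Nat.support_factorization, Finsupp.mem_support_iff] at hp
    omega
  rw [h1]
  refine Finset.prod_congr rfl fun p hp => ?_
  rw [(Finset.mem_filter.1 hp).2, pow_one]

theorem finite_powPart (T : ℕ) : {n : ℕ | 0 < n ∧ Coinc n ∧ powPart n = T}.Finite := by
  classical
  set G := ∑ p ∈ T.primeFactors, (T.factorization p + 2) + 1 with hG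
  have key : ∀ k : ℕ, {n : ℕ | Coinc n ∧ ∃ p : (T.primeFactors ⊕ Fin k) → ℕ,
      (∀ i, (p i).Prime) ∧ Function.Injective p ∧
      n = ∏ i, p i ^ (Sum.elim (fun q : T.primeFactors => T.factorization q) (fun _ => 1) i : ℕ)}.Finite := by
    intro k
    refine finite_pattern _ fun i => ?_
    rcases i with ⟨q, hq⟩ | j
    · have h1 : T.factorization q ≠ 0 := by
        have h2 := hq
        rw [← Nat.support_factorization, Finsupp.mem_support_iff] at h2
        exact h2
      simp only [Sum.elim_inl]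
      omega
    · simp
  refine (Set.finite_iUnion fun k : Fin (G + 1) => key k).subset ?_
  rintro n ⟨hn, hc, hT⟩
  have h1 := card_once hn hc
  rw [hT] at h1
  rw [Set.mem_iUnion]
  refine ⟨⟨(once n).card, by omega⟩, hc, ?_⟩
  set f : Fin (once n).card ≃ once n := (once n).equivFin.symm with hf
  have honce : ∀ p ∈ once n, p.Prime ∧ p ∉ T.primeFactors := by
    intro p hp
    rw [once, Finset.mem_filter] at hp
    refine ⟨Nat.prime_of_mem_primeFactors hp.1, ?_⟩
    rw [← hT, powPart_factors, Finset.mem_filter]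
    omega
  refine ⟨Sum.elim (fun q => (q : ℕ)) (fun j => ((f j : once n) : ℕ)), ?_, ?_, ?_⟩
  · rintro (q | j)
    · exact Nat.prime_of_mem_primeFactors q.2
    · exact (honce _ (f j).2).1
  · rintro (q | j) (q' | j') h
    · simp only [Sum.elim_inl] at h
      rw [Subtype.ext h]
    · simp only [Sum.elim_inl, Sum.elim_inr] at h
      exact absurd (h ▸ q.2) (honce _ (f j').2).2
    · simp only [Sum.elim_inl, Sum.elim_inr] at h
      exact absurd (h ▸ q'.2) (honce _ (f j).2).2
    · simp only [Sum.elim_inr] at h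
      rw [f.injective (Subtype.ext h)]
  · rw [Fintype.prod_sum_type]
    simp only [Sum.elim_inl, Sum.elim_inr, pow_one]
    conv_lhs => rw [decomp hn, hT]
    congr 1
    · have hT0 : T ≠ 0 := by
        rw [← hT]
        unfold powPart
        exact (Finset.prod_pos fun q hq => Nat.pow_pos
          (Nat.prime_of_mem_primeFactors (Finset.mem_filter.1 hq).1).pos).ne'
      conv_lhs => rw [← Nat.prod_factorization_pow_eq_self hT0, Finsupp.prod,
        Nat.support_factorization]
      exact (Finset.prod_coe_sort T.primeFactors fun q => q ^ T.factorization q).symm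
    · rw [← Finset.prod_coe_sort (once n) fun p => p]
      exact (Equiv.prod_comp f fun p => (p : ℕ)).symm

/-! ### the power of `2` and the odd powerful part -/

/-- the odd powerful part of `n`: the product of the prime powers `p ^ e` with `p` odd which divide
`n` exactly and have `e ≥ 2` -/
def oddPowPart (n : ℕ) : ℕ :=
  ∏ p ∈ (n.primeFactors.erase 2).filter (fun p => 2 ≤ n.factorization p), p ^ n.factorization p

theorem TT_two (k : ℕ) : TT 2 (k + 1) = k * 2 ^ (k + 1) + 1 := by
  induction k with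
  | zero => rfl
  | succ k ih =>
    rw [TT_succ, ih]
    ring

theorem TT_ge (x e : ℕ) : (e + 1) * x ^ e ≤ TT x (e + 1) := by
  rw [TT_succ]
  exact Nat.le_add_left _ _

theorem TT_ge' {x e : ℕ} (he : 1 ≤ e) : (2 * x + 1) * ((e + 1) * x ^ e) ≤ 2 * x * TT x (e + 1) := by
  obtain ⟨i, rfl⟩ : ∃ i, e = i + 1 := ⟨e - 1, by omega⟩
  have h1 : TT x (i + 1 + 1) = TT x (i + 1) + (i + 1 + 1) * x ^ (i + 1) := TT_succ _ _
  have h2 := TT_ge x i
  have h3 : 2 * x * ((i + 1) * x ^ i) = (i + 2) * x ^ (i + 1) + i * x ^ (i + 1) := by ring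
  have h4 : 2 * x * ((i + 1) * x ^ i) ≤ 2 * x * TT x (i + 1) := Nat.mul_le_mul_left _ h2
  calc (2 * x + 1) * ((i + 1 + 1) * x ^ (i + 1)) =
        (i + 2) * x ^ (i + 1) + 2 * x * ((i + 1 + 1) * x ^ (i + 1)) := by ring
    _ ≤ ((i + 2) * x ^ (i + 1) + i * x ^ (i + 1)) + 2 * x * ((i + 1 + 1) * x ^ (i + 1)) :=
        Nat.add_le_add_right (Nat.le_add_right _ _) _
    _ = 2 * x * ((i + 1) * x ^ i) + 2 * x * ((i + 1 + 1) * x ^ (i + 1)) := by rw [h3]
    _ ≤ 2 * x * TT x (i + 1) + 2 * x * ((i + 1 + 1) * x ^ (i + 1)) :=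
        Nat.add_le_add_right h4 _
    _ = 2 * x * TT x (i + 1 + 1) := by rw [h1]; ring

theorem val_two_lt {n p : ℕ} (hn : 0 < n) (h : Coinc n) (hp : p.Prime) (hp2 : p ≠ 2)
    (hpn : p ∣ n) : n.factorization 2 < 2 * p := by
  by_cases hk : n.factorization 2 = 0
  · rw [hk]
    have := hp.pos
    omega
  have h1 := equation hn h
  set k := n.factorization 2 with hkd
  have h2mem : 2 ∈ n.primeFactors := by
    rw [← Nat.support_factorization, Finsupp.mem_support_iff]
    exact hk
  have hpmem : p ∈ n.primeFactors.erase 2 :=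
    Finset.mem_erase.2 ⟨hp2, Nat.mem_primeFactors.2 ⟨hp, hpn, hn.ne'⟩⟩
  have he : 1 ≤ n.factorization p := (hp.dvd_iff_one_le_factorization hn.ne').1 hpn
  set R := (n.primeFactors.erase 2).erase p with hR
  have hF : FF n = TT 2 (k + 1) * (TT p (n.factorization p + 1) *
      ∏ q ∈ R, TT q (n.factorization q + 1)) := by
    rw [FF_prod hn.ne', ← Finset.mul_prod_erase _ _ h2mem, ← Finset.mul_prod_erase _ _ hpmem]
  have hN : n * n.divisors.card = ((k + 1) * 2 ^ k) * (((n.factorization p + 1) *
      p ^ n.factorization p) * ∏ q ∈ R, ((n.factorization q + 1) * q ^ n.factorization q)) := by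
    have e1 : n * n.divisors.card =
        ∏ q ∈ n.primeFactors, ((n.factorization q + 1) * q ^ n.factorization q) := by
      rw [Finset.prod_mul_distrib, Nat.card_divisors hn.ne', mul_comm]
      congr 1
      conv_lhs => rw [← Nat.prod_factorization_pow_eq_self hn.ne', Finsupp.prod,
        Nat.support_factorization]
    rw [e1, ← Finset.mul_prod_erase _ _ h2mem, ← Finset.mul_prod_erase _ _ hpmem]
  have hs : 0 < sigma 1 n := by
    rw [sigma_one_apply]
    exact Finset.sum_pos (fun d hd => Nat.pos_of_mem_divisors hd) ⟨1, by simp [hn.ne']⟩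
  set a := TT p (n.factorization p + 1) with ha
  set b := (n.factorization p + 1) * p ^ n.factorization p with hb
  set U := ∏ q ∈ R, TT q (n.factorization q + 1) with hU
  set V := ∏ q ∈ R, ((n.factorization q + 1) * q ^ n.factorization q) with hV
  have hUV : V ≤ U := Finset.prod_le_prod' fun q _ => TT_ge q _
  have hV0 : 0 < V := by
    refine Finset.prod_pos fun q hq => ?_
    have hq1 : q ∈ n.primeFactors := Finset.mem_of_mem_erase (Finset.mem_of_mem_erase hq)
    have := (Nat.prime_of_mem_primeFactors hq1).pos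
    positivity
  have hb0 : 0 < b := by
    have := hp.pos
    positivity
  have hab : (2 * p + 1) * b ≤ 2 * p * a := TT_ge' he
  rw [hF, hN, TT_two] at h1
  have h2 : (k * 2 ^ (k + 1) + 1) * (a * U) < 2 * (((k + 1) * 2 ^ k) * (b * V)) := by omega
  have h3 : (2 * p + 1) * b * V ≤ 2 * p * a * U := Nat.mul_le_mul hab hUV
  have h4 : (k * 2 ^ (k + 1) + 1) * ((2 * p + 1) * b * V) <
      2 * p * (2 * (((k + 1) * 2 ^ k) * (b * V))) := by
    calc (k * 2 ^ (k + 1) + 1) * ((2 * p + 1) * b * V) ≤
          (k * 2 ^ (k + 1) + 1) * (2 * p * a * U) := Nat.mul_le_mul_left _ h3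
      _ = 2 * p * ((k * 2 ^ (k + 1) + 1) * (a * U)) := by ring
      _ < _ := Nat.mul_lt_mul_of_pos_left h2 (by have := hp.pos; omega)
  have h5 : ((k * 2 ^ (k + 1) + 1) * (2 * p + 1)) * (b * V) <
      (2 * p * (2 * ((k + 1) * 2 ^ k))) * (b * V) := by
    calc ((k * 2 ^ (k + 1) + 1) * (2 * p + 1)) * (b * V) =
          (k * 2 ^ (k + 1) + 1) * ((2 * p + 1) * b * V) := by ring
      _ < _ := h4
      _ = _ := by ring
  have h6 := lt_of_mul_lt_mul_right h5 (Nat.zero_le _)
  have h7 : 2 * k * 2 ^ k < 4 * p * 2 ^ k := by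
    have e1 : (k * 2 ^ (k + 1) + 1) * (2 * p + 1) =
        4 * p * k * 2 ^ k + 2 * k * 2 ^ k + (2 * p + 1) := by ring
    have e2 : 2 * p * (2 * ((k + 1) * 2 ^ k)) = 4 * p * k * 2 ^ k + 4 * p * 2 ^ k := by ring
    omega
  have h8 := lt_of_mul_lt_mul_right h7 (Nat.zero_le _)
  omega

theorem powPart_le {n : ℕ} : powPart n ≤ 2 ^ n.factorization 2 * oddPowPart n := by
  unfold powPart oddPowPart
  by_cases h2 : 2 ∈ n.primeFactors.filter (fun p => 2 ≤ n.factorization p)
  · rw [← Finset.mul_prod_erase _ _ h2]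
    refine Nat.mul_le_mul_left _ (le_of_eq ?_)
    rw [Finset.filter_erase]
  · have h3 : (n.primeFactors.erase 2).filter (fun p => 2 ≤ n.factorization p) =
        n.primeFactors.filter (fun p => 2 ≤ n.factorization p) := by
      rw [Finset.filter_erase, Finset.erase_eq_of_notMem h2]
    rw [h3]
    exact Nat.le_mul_of_pos_left _ (Nat.two_pow_pos _)

theorem exists_odd_square {n : ℕ} (hn : 0 < n) (h : Coinc n) (hnp : ¬ ∃ k, n = 2 ^ k) :
    ∃ p, p.Prime ∧ p ≠ 2 ∧ p ∣ n ∧ p ≤ oddPowPart n := by
  have h1 := two_adic hn (equation hn h)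
  -- some odd prime has an exponent at least `2`
  have h2 : ((n.primeFactors.erase 2).filter (fun p => 2 ≤ n.factorization p)).Nonempty := by
    by_contra hcon
    rw [Finset.not_nonempty_iff_eq_empty, Finset.filter_eq_empty_iff] at hcon
    have h3 : ∀ q ∈ n.primeFactors.erase 2, n.factorization q = 1 := by
      intro q hq
      have h4 := hcon hq
      have h5 : n.factorization q ≠ 0 := by
        have := Finset.mem_of_mem_erase hq
        rwa [← Nat.support_factorization, Finsupp.mem_support_iff] at this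
      omega
    have h4 : (n.primeFactors.erase 2).filter (fun p => Even (n.factorization p)) = ∅ := by
      rw [Finset.filter_eq_empty_iff]
      intro q hq
      rw [h3 q hq]
      decide
    have h5 : (n.primeFactors.erase 2).filter (fun p => Odd (n.factorization p)) =
        n.primeFactors.erase 2 := by
      rw [Finset.filter_eq_self]
      intro q hq
      rw [h3 q hq]
      exact odd_one
    rw [h4, h5, Finset.sum_empty, Nat.le_zero, Finset.card_eq_zero] at h1
    apply hnp
    refine ⟨n.factorization 2, ?_⟩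
    have h6 : n.primeFactors ⊆ {2} := by
      intro q hq
      by_contra hq2
      rw [Finset.mem_singleton] at hq2
      have : q ∈ n.primeFactors.erase 2 := Finset.mem_erase.2 ⟨hq2, hq⟩
      rw [h1] at this
      exact absurd this (Finset.notMem_empty _)
    conv_lhs => rw [← Nat.prod_factorization_pow_eq_self hn.ne', Finsupp.prod,
      Nat.support_factorization]
    rw [Finset.prod_subset h6 fun q hq hqn => ?_, Finset.prod_singleton]
    rw [← Nat.support_factorization, Finsupp.notMem_support_iff] at hqn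
    rw [hqn, pow_zero]
  obtain ⟨p, hp⟩ := h2
  have hp1 := Finset.mem_filter.1 hp
  have hp2 := Finset.mem_erase.1 hp1.1
  have hpp := Nat.prime_of_mem_primeFactors hp2.2
  refine ⟨p, hpp, hp2.1, Nat.dvd_of_mem_primeFactors hp2.2, ?_⟩
  unfold oddPowPart
  have h3 : p ^ n.factorization p ∣ ∏ p ∈ (n.primeFactors.erase 2).filter
      (fun p => 2 ≤ n.factorization p), p ^ n.factorization p := Finset.dvd_prod_of_mem _ hp
  have h4 : 0 < ∏ p ∈ (n.primeFactors.erase 2).filter
      (fun p => 2 ≤ n.factorization p), p ^ n.factorization p :=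
    Finset.prod_pos fun q hq => Nat.pow_pos (Nat.prime_of_mem_primeFactors
      (Finset.mem_of_mem_erase (Finset.mem_filter.1 hq).1)).pos
  exact (Nat.le_self_pow (by omega) p).trans (Nat.le_of_dvd h4 h3)

theorem finite_oddPowPart (K : ℕ) :
    {n : ℕ | 0 < n ∧ Coinc n ∧ (¬ ∃ k, n = 2 ^ k) ∧ oddPowPart n ≤ K}.Finite := by
  have hfin : ∀ L : ℕ, {n : ℕ | 0 < n ∧ Coinc n ∧ powPart n ≤ L}.Finite := by
    intro L
    refine ((Finset.range (L + 1)).finite_toSet.biUnion fun T _ => finite_powPart T).subset ?_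
    rintro n ⟨hn, hc, hK⟩
    rw [Set.mem_iUnion₂]
    exact ⟨powPart n, by simpa using Nat.lt_succ_of_le hK, hn, hc, rfl⟩
  refine (hfin (2 ^ (2 * K) * K)).subset ?_
  rintro n ⟨hn, hc, hnp, hK⟩
  obtain ⟨p, hp, hp2, hpn, hple⟩ := exists_odd_square hn hc hnp
  have h1 := val_two_lt hn hc hp hp2 hpn
  refine ⟨hn, hc, powPart_le.trans (Nat.mul_le_mul (Nat.pow_le_pow_right two_pos ?_) hK)⟩
  omega

/-- **Finiteness.** (1) For every list of exponents only finitely many `n` with this list satisfy
`a(n) = σ(n)`. (2) For every `K` only finitely many `n` with `a(n) = σ(n)` which are not powers of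
`2` have odd powerful part at most `K`. (3) The exponent of `2` is less than `2 p` for every odd
prime `p` which divides such an `n`. -/
theorem result :
    (∀ (r : ℕ) (e : Fin r → ℕ), (∀ i, 1 ≤ e i) →
      {n : ℕ | Coinc n ∧ ∃ p : Fin r → ℕ, (∀ i, (p i).Prime) ∧ Function.Injective p ∧
        n = ∏ i, p i ^ e i}.Finite) ∧
    (∀ K : ℕ, {n : ℕ | 0 < n ∧ Coinc n ∧ (¬ ∃ k, n = 2 ^ k) ∧ oddPowPart n ≤ K}.Finite) ∧
    (∀ n p : ℕ, 0 < n → Coinc n → p.Prime → p ≠ 2 → p ∣ n → n.factorization 2 < 2 * p) :=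
  ⟨fun _ e he => finite_pattern e he, finite_oddPowPart,
    fun _ _ hn h hp hp2 hpn => val_two_lt hn h hp hp2 hpn⟩

end Pool.Agent.Results.MP_846857_nt.FinitePatterns
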