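import Pool.Agent.OTW.Only

/-!
# A linear relation at prime powers and the solutions of `a(n) = σ(n)`
-/

namespace Pool.Agent.Results.MP_846857_nt.OneTower

open Pool.Agent

/-- `T(n) = ∑ d τ(d)` over the divisors `d` of `n` -/
def T (n : ℕ) : ℤ := ∑ d ∈ n.divisors, (d : ℤ) * d.divisors.card

/-- `a(n) = n τ(n) - ∑ d τ(d)` over the divisors `d < n` of `n` -/
def a (n : ℕ) : ℤ := (n : ℤ) * n.divisors.card - ∑ d ∈ n.properDivisors, (d : ℤ) * d.divisors.card

/-- `σ(n)` -/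
def σ (n : ℕ) : ℤ := ∑ d ∈ n.divisors, (d : ℤ)

/-- `n` is a solution -/
def Sol (n : ℕ) : Prop := 0 < n ∧ a n = σ n

lemma T_eq (n : ℕ) : T n = (AS.FF n : ℤ) := by
  rw [AS.FF_apply]
  unfold T
  push_cast
  rfl

lemma σ_eq (n : ℕ) : σ n = (ArithmeticFunction.sigma 1 n : ℤ) := by
  rw [ArithmeticFunction.sigma_one_apply]
  unfold σ
  push_cast
  rfl

lemma a_eq {n : ℕ} (hn : 0 < n) : a n = 2 * ((n : ℤ) * n.divisors.card) - AS.FF n := by
  rw [← T_eq]
  unfold a T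
  rw [← Nat.insert_self_properDivisors hn.ne', Finset.sum_insert (by simp),
    Nat.insert_self_properDivisors hn.ne']
  ring

lemma sol_iff {n : ℕ} (hn : 0 < n) : Sol n ↔ OTW.EQ n := by
  unfold Sol OTW.EQ
  rw [a_eq hn, σ_eq]
  constructor
  · rintro ⟨-, h⟩
    have : (AS.FF n : ℤ) + ArithmeticFunction.sigma 1 n = 2 * (n * n.divisors.card) := by linarith
    exact_mod_cast this
  · intro h
    have : (AS.FF n : ℤ) + ArithmeticFunction.sigma 1 n = 2 * (n * n.divisors.card) := by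
      exact_mod_cast h
    exact ⟨hn, by linarith⟩

lemma law (p e : ℕ) (hp : p.Prime) :
    ((p : ℤ) - 1) * T (p ^ e) + σ (p ^ e) = p * (((p ^ e : ℕ) : ℤ) * (p ^ e).divisors.card) := by
  rw [T_eq, σ_eq, AS.FF_prime_pow hp, AS.sigma_prime_pow hp, Nat.divisors_prime_pow hp,
    Finset.card_map, Finset.card_range, OTW.law]
  push_cast
  rw [pow_succ]
  ring

/-- (1) The linear relation at prime powers.
(2) For a prime `p` not dividing `m ≥ 1` at most one of the numbers `p ^ e m`, `e ≥ 0`, is a solution,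
unless `m = 1` and `p = 2`.
(3) If `p ^ e m` is a solution, `p ∤ m`, then `p ^ e` divides `T(m) - (p - 1) σ(m)`, and this number is
not zero unless `m = 1` and `p = 2`.
(4) For given `m ≥ 1` only finitely many `p ^ e m` (`p` prime, `p ∤ m`, `e ≥ 0`) that are not powers of
two are solutions.
(5) For every `K` only finitely many solutions other than the powers of two have no prime factor
above `K`.
(6) For every `r` and every function `f` only finitely many solutions `n` have at most `r` prime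
factors and exponents `v_p(n) ≤ f(p)` at all primes `p`.
(7) `a(n) ≥ σ(n)` for all `n ≥ 1` with `2 φ(n) ≥ n`, with equality only for the powers of two.
(8) For a solution `2 ^ b m`, `m > 1` odd, with `P` the largest prime factor, `p` the least prime
factor and `r` the number of prime factors of `m`: `(b + 2) φ(m) < (b + 1) m`, `b + 2 ≤ P`,
`(2 b + 3) (p - 2) < 2 (b + 1)² r`, and `2 ^ b m` has at least three prime factors. -/
theorem result :
    (∀ p e : ℕ, p.Prime →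
      ((p : ℤ) - 1) * T (p ^ e) + σ (p ^ e) = p * (((p ^ e : ℕ) : ℤ) * (p ^ e).divisors.card)) ∧
    (∀ m p e f : ℕ, 0 < m → p.Prime → ¬ p ∣ m → e ≠ f → Sol (p ^ e * m) → Sol (p ^ f * m) →
      m = 1 ∧ p = 2) ∧
    (∀ m p e : ℕ, 0 < m → p.Prime → ¬ p ∣ m → Sol (p ^ e * m) →
      (p : ℤ) ^ e ∣ T m - ((p : ℤ) - 1) * σ m ∧
      (m ≠ 1 ∨ p ≠ 2 → T m - ((p : ℤ) - 1) * σ m ≠ 0)) ∧
    (∀ m : ℕ, 0 < m →
      {n : ℕ | ∃ p e : ℕ, p.Prime ∧ ¬ p ∣ m ∧ n = p ^ e * m ∧ Sol n ∧ ¬ ∃ k : ℕ, n = 2 ^ k}.Finite) ∧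
    (∀ K : ℕ, {n : ℕ | Sol n ∧ (∀ p ∈ n.primeFactors, p ≤ K) ∧ ¬ ∃ k : ℕ, n = 2 ^ k}.Finite) ∧
    (∀ (r : ℕ) (f : ℕ → ℕ), {n : ℕ | Sol n ∧ n.primeFactors.card ≤ r ∧
      ∀ p : ℕ, p.Prime → n.factorization p ≤ f p}.Finite) ∧
    (∀ n : ℕ, 0 < n → n ≤ 2 * n.totient → σ n ≤ a n ∧ (a n = σ n ↔ ∃ k : ℕ, n = 2 ^ k)) ∧
    (∀ b m : ℕ, Odd m → 1 < m → Sol (2 ^ b * m) →
      (b + 2) * m.totient < (b + 1) * m ∧
      (∃ P ∈ m.primeFactors, b + 2 ≤ P) ∧
      (2 * b + 3) * (m.minFac - 2) < 2 * (b + 1) ^ 2 * m.primeFactors.card ∧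
      3 ≤ (2 ^ b * m).primeFactors.card) := by
  have hsol : ∀ {m p e : ℕ}, 0 < m → p.Prime → Sol (p ^ e * m) → OTW.EQ (p ^ e * m) :=
    fun {m p e} hm hp h => (sol_iff (Nat.mul_pos (pow_pos hp.pos e) hm)).1 h
  refine ⟨fun p e hp => law p e hp, ?_, ?_, ?_, ?_, ?_, ?_, ?_⟩
  · intro m p e f hm hp hpm hef h1 h2
    exact OTW.two_exponents hm hp hpm hef (hsol hm hp h1) (hsol hm hp h2)
  · intro m p e hm hp hpm hs
    rw [T_eq, σ_eq]
    exact ⟨OTW.dvd_of_EQ hp hpm (hsol hm hp hs), fun hne h0 =>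
      OTW.ne_of_EQ hm hp hpm (hsol hm hp hs) hne (by linarith)⟩
  · intro m hm
    refine (OTW.finite_m hm).subset ?_
    rintro n ⟨p, e, hp, hpm, rfl, hs, hk⟩
    exact ⟨p, e, hp, hpm, rfl, hsol hm hp hs, hk⟩
  · intro K
    refine (OTW.finite_K K).subset ?_
    rintro n ⟨hs, hK, hk⟩
    exact ⟨hs.1, (sol_iff hs.1).1 hs, hK, hk⟩
  · intro r f
    refine (OTW.finite_fun r f).subset ?_
    rintro n ⟨hs, hr, hf⟩
    exact ⟨hs.1, (sol_iff hs.1).1 hs, hr, hf⟩
  · intro n hn h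
    have h1 := OTW.le_of_totient hn h
    have h1' : (AS.FF n : ℤ) + ArithmeticFunction.sigma 1 n ≤ 2 * (n * n.divisors.card) := by
      exact_mod_cast h1
    refine ⟨by rw [a_eq hn, σ_eq]; linarith, ?_⟩
    constructor
    · intro he
      exact OTW.two_pow_of_EQ hn h ((sol_iff hn).1 ⟨hn, he⟩)
    · rintro ⟨k, rfl⟩
      exact ((sol_iff (by positivity)).2 (OTW.EQ_two_pow k)).2
  · intro b m hm hm1 hs
    have hm0 : 0 < m := by omega
    have hE : OTW.EQ (2 ^ b * m) := (sol_iff (by positivity)).1 hs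
    obtain ⟨h1, h2⟩ := OTW.odd_part hm hm1 hE
    refine ⟨h1, ?_, OTW.grun hm hm1 h1, ?_⟩
    · have hne : m.primeFactors.Nonempty := ⟨m.minFac, by
        rw [Nat.mem_primeFactors]
        exact ⟨Nat.minFac_prime hm1.ne', Nat.minFac_dvd m, hm0.ne'⟩⟩
      obtain ⟨P, hP, hmax⟩ := Finset.exists_max_image m.primeFactors id hne
      exact ⟨P, hP, h2 P fun p hp => hmax p hp⟩
    · obtain ⟨t1, t2⟩ := OTW.three hm hm1 hE
      rcases Nat.eq_zero_or_pos b with rfl | hb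
      · rw [pow_zero, one_mul]
        exact t2 rfl
      · have hc : Nat.Coprime (2 ^ b) m := (Nat.coprime_two_left.2 hm).pow_left b
        rw [Nat.Coprime.primeFactors_mul hc, Finset.card_union_of_disjoint hc.disjoint_primeFactors,
          Nat.primeFactors_prime_pow hb.ne' Nat.prime_two, Finset.card_singleton]
        omega

end Pool.Agent.Results.MP_846857_nt.OneTower
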