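import Pool.Agent.SPC.Count

/-!
# The solutions of `a(n) = σ(n)` are sparse
-/

namespace Pool.Agent.Results.MP_846857_nt.SparseSolutions

/-- `a(n) = n τ(n) - ∑ d τ(d)` over the divisors `d < n` of `n` -/
def a (n : ℕ) : ℤ := (n : ℤ) * n.divisors.card - ∑ d ∈ n.properDivisors, (d : ℤ) * d.divisors.card

/-- `σ(n)` -/
def σ (n : ℕ) : ℤ := ∑ d ∈ n.divisors, (d : ℤ)

theorem eq_iff {n : ℕ} (hn : 0 < n) (h : a n = σ n) : Pool.Agent.SPC.EQ n :=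
  Pool.Agent.AS.equation hn h

/-- (1) For all `s, e ≥ 1` there is at most one prime `P` not dividing `s` for which `n = P ^ e s`
satisfies `a(n) = σ(n)`.
(2) For every `c < √2` at most `x exp (-c √(log x log log x))` integers `1 ≤ n ≤ x` satisfy
`a(n) = σ(n)`, for all large `x`. -/
theorem result :
    (∀ s e P Q : ℕ, 0 < s → 1 ≤ e → P.Prime → Q.Prime → ¬ P ∣ s → ¬ Q ∣ s →
      a (P ^ e * s) = σ (P ^ e * s) → a (Q ^ e * s) = σ (Q ^ e * s) → P = Q) ∧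
    (∀ c : ℝ, c < Real.sqrt 2 → ∃ x₀ : ℕ, ∀ x : ℕ, x₀ ≤ x →
      ({n : ℕ | 1 ≤ n ∧ n ≤ x ∧ a n = σ n}.ncard : ℝ) ≤
        x * Real.exp (-c * Real.sqrt (Real.log x * Real.log (Real.log x)))) := by
  classical
  refine ⟨fun s e P Q hs he hP hQ hPs hQs h1 h2 => ?_, fun c hc => ?_⟩
  · exact Pool.Agent.SPC.uniq hs hP hQ hPs hQs he
      (eq_iff (Nat.mul_pos (pow_pos hP.pos e) hs) h1) (eq_iff (Nat.mul_pos (pow_pos hQ.pos e) hs) h2)
  · obtain ⟨x₀, h⟩ := Pool.Agent.SPC.count hc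
    refine ⟨x₀, fun x hx => le_trans ?_ (h x hx)⟩
    have hsub : {n : ℕ | 1 ≤ n ∧ n ≤ x ∧ a n = σ n} ⊆
        (((Finset.Icc 1 x).filter (fun n => Pool.Agent.SPC.EQ n) : Finset ℕ) : Set ℕ) := by
      intro n hn
      rw [Finset.coe_filter]
      exact ⟨Finset.mem_Icc.2 ⟨hn.1, hn.2.1⟩, eq_iff hn.1 hn.2.2⟩
    have := Set.ncard_le_ncard hsub (Finset.finite_toSet _)
    rw [Set.ncard_coe_finset] at this
    exact_mod_cast this

end Pool.Agent.Results.MP_846857_nt.SparseSolutions
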