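import Pool.Agent.AS.Main

/-!
# 2-adic structure of the solutions of `a(n) = σ(n)`
-/

namespace Pool.Agent.Results.MP_846857_nt.TwoAdicStructure

open Pool.Agent.AS

theorem result (n : ℕ) (hn : 0 < n)
    (h : (n : ℤ) * n.divisors.card - ∑ d ∈ n.properDivisors, (d : ℤ) * d.divisors.card =
      ∑ d ∈ n.divisors, (d : ℤ)) :
    ((n.primeFactors.erase 2).filter fun p => Odd (n.factorization p)).card ≤
      ∑ p ∈ (n.primeFactors.erase 2).filter (fun p => Even (n.factorization p)),
        (padicValNat 2 (n.factorization p + 2) - 1) ∧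
    ((∀ p ∈ n.primeFactors.erase 2, Even (n.factorization p)) →
      ∀ p ∈ n.primeFactors.erase 2, 4 ∣ n.factorization p) :=
  ⟨two_adic hn (equation hn h), fourth_power hn (equation hn h)⟩

end Pool.Agent.Results.MP_846857_nt.TwoAdicStructure
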